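import Mathlib
import Pool.Agent.H110.ML.Prim
import Pool.Agent.H110.ML.Alg
import Pool.Agent.H110.ML.Tree

set_option autoImplicit false

/-! # Minimum-length multiples of nonmonic irreducible polynomials are computable -/

open Polynomial Finset

namespace Pool.Agent.Results.MP_e7878a_nt.MinLength

/-- The length of an integer polynomial: the sum of the absolute values of its coefficients. -/
noncomputable def length (F : ℤ[X]) : ℕ := F.sum fun _ a => a.natAbs

/-- `F` is a minimum-length multiple of `P`: a nonzero multiple of `P` in `ℤ[X]` whose length is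
smallest among all nonzero multiples of `P`. -/
def IsMinLengthMultiple (P F : ℤ[X]) : Prop :=
  F ≠ 0 ∧ P ∣ F ∧ ∀ G : ℤ[X], G ≠ 0 → P ∣ G → length F ≤ length G

end Pool.Agent.Results.MP_e7878a_nt.MinLength

namespace H110.ML

open Pool.Agent.Results.MP_e7878a_nt.MinLength

theorem length_eq_len (F : ℤ[X]) : length F = len F := rfl

/-- reversal twice -/
theorem reverse_reverse' (P : ℤ[X]) (h : P.coeff 0 ≠ 0) : P.reverse.reverse = P := by
  have h1 : P.natTrailingDegree = 0 := by
    rw [natTrailingDegree_eq_zero]; right; exact h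
  have h2 : P.reverse.natDegree = P.natDegree := by
    rw [reverse_natDegree, h1]; rfl
  rw [reverse, h2, reverse, reflect_reflect]

theorem isUnit_reverse {P : ℤ[X]} (h : IsUnit P) : IsUnit P.reverse := by
  obtain ⟨r, hr, rfl⟩ := Polynomial.isUnit_iff.1 h
  rw [reverse_C]; exact h

theorem irreducible_reverse (P : ℤ[X]) (hP : Irreducible P) (h : P.coeff 0 ≠ 0) :
    Irreducible P.reverse := by
  refine ⟨fun hu => hP.not_isUnit ?_, fun a b hab => ?_⟩
  · rw [← reverse_reverse' P h]; exact isUnit_reverse hu
  · have h1 : P = a.reverse * b.reverse := by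
      rw [← reverse_mul_of_domain, ← hab, reverse_reverse' P h]
    have h2 : a.coeff 0 * b.coeff 0 ≠ 0 := by
      rw [← mul_coeff_zero, ← hab, coeff_zero_reverse]
      exact leadingCoeff_ne_zero.2 hP.ne_zero
    rcases hP.isUnit_or_isUnit h1 with hu | hu
    · left
      rw [← reverse_reverse' a (left_ne_zero_of_mul h2)]; exact isUnit_reverse hu
    · right
      rw [← reverse_reverse' b (right_ne_zero_of_mul h2)]; exact isUnit_reverse hu

theorem coeffList_length (P : ℤ[X]) (h : P ≠ 0) : P.coeffList.length = P.natDegree + 1 := by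
  classical
  rw [length_coeffList_eq_ite, if_neg h]

theorem coeffList_getD (P : ℤ[X]) (h : P ≠ 0) (i : ℕ) :
    P.coeffList.getD i 0 = P.reverse.coeff i := by
  rw [coeff_reverse]
  by_cases hi : i < P.natDegree + 1
  · rw [List.getD_eq_getElem _ _ (by rw [coeffList_length P h]; exact hi)]
    simp only [coeffList, withBotSucc_degree_eq_natDegree_add_one h]
    rw [List.getElem_map, List.getElem_reverse, List.getElem_range, revAt_le (by omega)]
    simp only [List.length_range]
    congr 1
  · rw [getD_of_le _ _ (by rw [coeffList_length P h]; omega), revAt_eq_self_of_lt (by omega),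
      coeff_eq_zero_of_natDegree_lt (by omega)]

theorem asc_coeffList (P : ℤ[X]) (h : P ≠ 0) : asc P.coeffList = P.reverse := by
  ext i
  rw [asc_coeff, coeffList_getD P h]

theorem eq_coeffList (F : ℤ[X]) (h : F ≠ 0) (m : List ℤ) (hm : m.length = F.natDegree + 1)
    (hc : ∀ i, i < F.natDegree + 1 → m.getD i 0 = F.reverse.coeff i) : m = F.coeffList := by
  apply List.ext_getElem
  · rw [hm, coeffList_length F h]
  · intro i h1 h2
    have h3 := hc i (by omega)
    rw [← coeffList_getD F h] at h3
    rwa [List.getD_eq_getElem _ _ h1, List.getD_eq_getElem _ _ h2] at h3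

theorem len_reverse (F : ℤ[X]) : len F.reverse = len F := by
  rw [len_eq F (F.natDegree + 1) (by omega),
    len_eq F.reverse (F.natDegree + 1) (by have := reverse_natDegree_le F; omega),
    ← Finset.sum_range_reflect]
  refine Finset.sum_congr rfl fun i hi => ?_
  rw [Finset.mem_range] at hi
  rw [coeff_reverse, revAt_le (by omega)]
  congr 2
  omega

/-- every list with nonzero head is the coefficient list of a polynomial -/
theorem exists_of_list (t : List ℤ) (ht : t.getD 0 0 ≠ 0) :
    ∃ T : ℤ[X], T ≠ 0 ∧ T.natDegree + 1 = t.length ∧ T.reverse = asc t := by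
  have hlen : 0 < t.length := by
    by_contra h
    apply ht
    exact getD_of_le t 0 (by omega)
  set N := t.length - 1 with hN
  set T : ℤ[X] := reflect N (asc t) with hT
  have htop : T.coeff N = t.getD 0 0 := by
    rw [hT, coeff_reflect, revAt_le le_rfl, Nat.sub_self, asc_coeff]
  have hdeg : T.natDegree = N := by
    refine natDegree_eq_of_le_of_coeff_ne_zero ?_ (by rw [htop]; exact ht)
    rw [natDegree_le_iff_coeff_eq_zero]
    intro i hi
    rw [hT, coeff_reflect, revAt_eq_self_of_lt hi, asc_coeff, getD_of_le]
    omega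
  refine ⟨T, ?_, by rw [hdeg]; omega, ?_⟩
  · intro h0
    apply ht
    rw [← htop, h0, coeff_zero]
  · rw [reverse, hdeg, hT, reflect_reflect]

/-- a polynomial with nonzero constant term and length at most one is a unit -/
theorem isUnit_of_len (A : ℤ[X]) (h0 : A.coeff 0 ≠ 0) (h : len A ≤ 1) : IsUnit A := by
  have h1 : ∀ i, A.coeff (i + 1) = 0 := by
    intro i
    by_contra hne
    have h2 := sum_le_len A (i + 2)
    rw [Finset.sum_range_succ, Finset.sum_range_succ'] at h2
    have h3 := Int.natAbs_ne_zero.2 hne
    have h4 := Int.natAbs_ne_zero.2 h0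
    omega
  have h2 : A = C (A.coeff 0) := by
    ext i
    rcases i with _ | i
    · simp
    · rw [h1 i, coeff_C_succ]
  have h3 := coeff_le_len A 0
  have h4 := Int.natAbs_ne_zero.2 h0
  rw [h2, Polynomial.isUnit_C, Int.isUnit_iff_natAbs_eq]
  omega

theorem len_unit (A : ℤ[X]) (h : IsUnit A) : len A = 1 := by
  obtain ⟨r, hr, rfl⟩ := Polynomial.isUnit_iff.1 h
  rw [len_eq (C r) 1 (by simp)]
  simpa using Int.isUnit_iff_natAbs_eq.1 hr

theorem asc_map_coeff (T : ℤ[X]) : asc ((List.range (T.natDegree + 1)).map T.coeff) = T := by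
  ext i
  rw [asc_coeff, getD_map_range]
  split_ifs with h
  · rfl
  · rw [coeff_eq_zero_of_natDegree_lt]; omega

/-- the search succeeds on every input -/
theorem test_total (l : List ℤ) : ∃ w, test l w := by
  by_cases h0 : (l.getD 0 0).natAbs < 2
  · exact ⟨(([], []), 0), Or.inl h0⟩
  · push Not at h0
    by_cases hirr : Irreducible (asc l)
    · obtain ⟨t, g, ht, hS⟩ := terminate l hirr h0
      refine ⟨(([], t), g), Or.inr (Or.inr ⟨ht, ?_⟩)⟩
      rw [ln_len l t _ (by simp)]
      exact hS
    · have hnu : ¬ IsUnit (asc l) := by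
        intro hu
        have h1 := len_unit _ hu
        have h2 := coeff_le_len (asc l) 0
        rw [asc_coeff] at h2
        omega
      have : ∃ a b : ℤ[X], asc l = a * b ∧ ¬ IsUnit a ∧ ¬ IsUnit b := by
        by_contra hcon
        push Not at hcon
        apply hirr
        refine ⟨hnu, fun a b hab => ?_⟩
        by_cases ha : IsUnit a
        · exact Or.inl ha
        · exact Or.inr (hcon a b hab ha)
      obtain ⟨a, b, hab, ha, hb⟩ := this
      have hc : a.coeff 0 * b.coeff 0 ≠ 0 := by
        rw [← mul_coeff_zero, ← hab, asc_coeff]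
        intro h; rw [h] at h0; simp at h0
      refine ⟨(((List.range (a.natDegree + 1)).map a.coeff,
        (List.range (b.natDegree + 1)).map b.coeff), 0), Or.inr (Or.inl ⟨?_, ?_, ?_⟩)⟩
      · rw [ln_len [1] _ _ (by simp; omega), asc_one, one_mul, asc_map_coeff]
        by_contra h
        exact ha (isUnit_of_len a (left_ne_zero_of_mul hc) (by omega))
      · rw [ln_len [1] _ _ (by simp; omega), asc_one, one_mul, asc_map_coeff]
        by_contra h
        exact hb (isUnit_of_len b (right_ne_zero_of_mul hc) (by omega))
      · intro i _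
        rw [cv_eq, asc_map_coeff, asc_map_coeff, ← hab, asc_coeff]

/-- soundness of the search -/
theorem test_sound (P : ℤ[X]) (hP : Irreducible P) (hlc : ¬ IsUnit P.leadingCoeff)
    (w : (List ℤ × List ℤ) × ℕ) (hw : test P.coeffList w) :
    ∃ F : ℤ[X], out P.coeffList w = F.coeffList ∧ IsMinLengthMultiple P F := by
  have hP0 := hP.ne_zero
  have hlc0 : P.leadingCoeff ≠ 0 := leadingCoeff_ne_zero.2 hP0
  have hhead : P.coeffList.getD 0 0 = P.leadingCoeff := by
    rw [coeffList_getD P hP0, coeff_zero_reverse]
  have hc0 : P.coeff 0 ≠ 0 := by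
    intro h
    rw [← X_dvd_iff] at h
    obtain ⟨u, hu⟩ := h
    rcases hP.isUnit_or_isUnit hu with h1 | h1
    · exact not_isUnit_X h1
    · apply hlc
      obtain ⟨r, hr, rfl⟩ := Polynomial.isUnit_iff.1 h1
      rw [hu, leadingCoeff_mul, leadingCoeff_X, leadingCoeff_C, one_mul]
      exact hr
  have hQirr : Irreducible P.reverse := irreducible_reverse P hP hc0
  rcases hw with h | ⟨h1, h2, h3⟩ | ⟨h1, h2⟩
  · exfalso
    rw [hhead] at h
    apply hlc
    rw [Int.isUnit_iff_natAbs_eq]
    have := Int.natAbs_ne_zero.2 hlc0
    omega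
  · exfalso
    rw [ln_len [1] _ _ (by simp; omega), asc_one, one_mul] at h1 h2
    have hprod : P.reverse = asc w.1.1 * asc w.1.2 := by
      rw [← asc_coeffList P hP0]
      ext i
      rw [← cv_eq, asc_coeff]
      by_cases hi : i < P.coeffList.length + w.1.1.length + w.1.2.length
      · exact (h3 i (List.mem_range.2 hi)).symm
      · rw [getD_of_le _ _ (by omega), cv_zero_of_le _ _ _ (by omega)]
    rcases hQirr.isUnit_or_isUnit hprod with hu | hu
    · have := len_unit _ hu; omega
    · have := len_unit _ hu; omega
  · obtain ⟨T, hT0, hTdeg, hTrev⟩ := exists_of_list w.1.2 h1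
    rw [ln_len _ _ _ (by simp), asc_coeffList P hP0, ← hTrev, ← reverse_mul_of_domain,
      len_reverse] at h2
    have hF0 : P * T ≠ 0 := mul_ne_zero hP0 hT0
    have hdeg : (P * T).natDegree = P.natDegree + T.natDegree := natDegree_mul hP0 hT0
    have hlen := coeffList_length P hP0
    refine ⟨P * T, ?_, hF0, dvd_mul_right _ _, ?_⟩
    · refine eq_coeffList _ hF0 _ ?_ ?_
      · unfold out
        simp only [List.length_map, List.length_range]
        omega
      · intro i hi
        unfold out
        rw [getD_map_range, if_pos (by omega), cv_eq, asc_coeffList P hP0, ← hTrev,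
          ← reverse_mul_of_domain]
    · rintro G hG ⟨U, rfl⟩
      rw [length_eq_len, length_eq_len]
      by_contra hlt
      push Not at hlt
      have hU : U ≠ 0 := right_ne_zero_of_mul hG
      have h4 := complete P.coeffList (len (P * T)) U.reverse (by rw [hhead]; exact hlc0)
        (by rw [coeff_zero_reverse]; exact leadingCoeff_ne_zero.2 hU)
        (by rw [asc_coeffList P hP0, ← reverse_mul_of_domain, len_reverse]; exact hlt) w.2
      rw [h2] at h4
      exact absurd h4 (List.not_mem_nil)

open Classical in
/-- one step of the unbounded search -/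
noncomputable def step (l : List ℤ) (n : ℕ) : Option (List ℤ) :=
  (Encodable.decode (α := (List ℤ × List ℤ) × ℕ) n).bind
    (fun w => if test l w then some (out l w) else none)

open Classical in
theorem comp_step : Computable₂ step := by
  unfold step
  have h : Primrec₂ (fun (l : List ℤ) (n : ℕ) =>
      (Encodable.decode (α := (List ℤ × List ℤ) × ℕ) n).bind
        (fun w => if test l w then some (out l w) else none)) := by
    refine Primrec.option_bind (α := List ℤ × ℕ) (Primrec.decode.comp Primrec.snd) ?_
    have h2 : Primrec (fun x : (List ℤ × ℕ) × ((List ℤ × List ℤ) × ℕ) =>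
        if test x.1.1 x.2 then some (out x.1.1 x.2) else none) := by
      refine Primrec.ite ?_ ?_ (Primrec.const none)
      · exact prim_test.comp (Primrec.pair (Primrec.fst.comp Primrec.fst) Primrec.snd)
      · exact Primrec.option_some.comp (prim_out.comp (Primrec.fst.comp Primrec.fst) Primrec.snd)
    exact h2
  exact h.to_comp

end H110.ML

namespace Pool.Agent.Results.MP_e7878a_nt.MinLength

open H110.ML

/-- There is a total computable function `f` on lists of integers such that for every irreducible
`P ∈ ℤ[X]` whose leading coefficient is not `±1`, `f` sends the coefficient list of `P` to the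
coefficient list of a minimum-length multiple of `P`. -/
theorem result : ∃ f : List ℤ → List ℤ, Computable f ∧
    ∀ P : ℤ[X], Irreducible P → P.leadingCoeff ≠ 1 → P.leadingCoeff ≠ -1 →
      ∃ F : ℤ[X], f P.coeffList = F.coeffList ∧ IsMinLengthMultiple P F := by
  have hdom : ∀ l, (Nat.rfindOpt (step l)).Dom := by
    intro l
    rw [Nat.rfindOpt_dom]
    obtain ⟨w, hw⟩ := test_total l
    refine ⟨Encodable.encode w, out l w, ?_⟩
    unfold step
    rw [Encodable.encodek, Option.bind_some, if_pos hw]
    rfl
  refine ⟨fun l => (Nat.rfindOpt (step l)).get (hdom l), ?_, ?_⟩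
  · have h1 : Partrec fun l => Nat.rfindOpt (step l) := Partrec.rfindOpt comp_step
    exact h1.of_eq fun l => by simp [Part.some_get]
  · intro P hP h1 h2
    have hspec := Nat.rfindOpt_spec (f := step P.coeffList) ⟨hdom P.coeffList, rfl⟩
    obtain ⟨n, hn⟩ := hspec
    unfold step at hn
    rw [Option.mem_def, Option.bind_eq_some_iff] at hn
    obtain ⟨w, _, hw⟩ := hn
    split_ifs at hw with ht
    have hlc : ¬ IsUnit P.leadingCoeff := by
      rw [Int.isUnit_iff]
      rintro (h | h)
      · exact h1 h
      · exact h2 h
    obtain ⟨F, hF, hmin⟩ := test_sound P hP hlc w ht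
    refine ⟨F, ?_, hmin⟩
    rw [← hF]
    exact (Option.some.inj hw).symm

end Pool.Agent.Results.MP_e7878a_nt.MinLength
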